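import Mathlib

set_option autoImplicit false

open Set Cardinal

namespace Pool.Agent.Results.MP_028983_lc.WeakDelta

/-- `I(κ)`: injections from an ordinal `a < κ⁺` (that is, from `Iio a`) into `κ`. -/
abbrev I (κ : Cardinal.{0}) : Type :=
  Σ a : (Order.succ κ).ord.ToType, (Iio a ↪ κ.ord.ToType)

/-- The principle `Δ(κ)`. -/
def Delta (κ : Cardinal.{0}) : Prop :=
  ∀ D : I κ → Set (Order.succ κ).ord.ToType, (∀ f, D f ⊆ Iio f.1 ∧ #(D f) < κ) →
    ∃ F : (Order.succ κ).ord.ToType → I κ, (∀ α β, α < β → (F α).1 < (F β).1) ∧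
      ∀ α β x (hα : x < (F α).1) (hβ : x < (F β).1), x ∈ D (F α) → x ∈ D (F β) →
        (F α).2 ⟨x, hα⟩ = (F β).2 ⟨x, hβ⟩

/-- Transfinite recursion with a unary and a binary invariant. -/
lemma recur {T X : Type} [LinearOrder T] [WellFoundedLT T] [Nonempty X] (P : T → X → Prop)
    (R : X → X → Prop)
    (H : ∀ (b : T) (g : T → X), (∀ a < b, P a (g a)) → (∀ a a', a < a' → a' < b → R (g a) (g a')) →
      ∃ x, P b x ∧ ∀ a < b, R (g a) x) :
    ∃ g : T → X, (∀ a, P a (g a)) ∧ ∀ a b, a < b → R (g a) (g b) := by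
  classical
  choose! F hF using H
  let G : ∀ b : T, (∀ a, a < b → X) → X :=
    fun b g => F b (fun a => if h : a < b then g a h else Classical.arbitrary X)
  let g : T → X := WellFoundedLT.fix G
  have hg : ∀ b, g b = F b (fun a => if a < b then g a else Classical.arbitrary X) := by
    intro b
    refine (WellFoundedLT.fix_eq G b).trans ?_
    simp only [G]
    congr 1
  have key : ∀ b, P b (g b) ∧ ∀ a < b, R (g a) (g b) := by
    intro b
    induction b using WellFoundedLT.induction with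
    | ind b ih =>
      obtain ⟨h1, h2⟩ := hF b (fun a => if a < b then g a else Classical.arbitrary X)
        (fun a ha => by simpa [ha] using (ih a ha).1)
        (fun a a' h h' => by simpa [h', h.trans h'] using (ih a' h').2 a h)
      rw [← hg] at h1 h2
      exact ⟨h1, fun a ha => by simpa [ha] using h2 a ha⟩
  exact ⟨g, fun a => (key a).1, fun a b h => (key b).2 a h⟩

lemma core {K L : Type} [LinearOrder K] [WellFoundedLT K] [LinearOrder L] [WellFoundedLT L]
    (hK : ℵ₀ ≤ #K) (hL : ∀ a : L, #(Iio a) ≤ #K) (hKL : #K < #L)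
    (D : (Σ a : L, (Iio a ↪ K)) → Set L) (hD : ∀ f, #(D f) < #K) :
    ∃ F : L → Σ a : L, (Iio a ↪ K), (∀ α β, α < β → (F α).1 < (F β).1) ∧
      ∀ α β x (hα : x < (F α).1) (hβ : x < (F β).1), x ∈ D (F α) → x ∈ D (F β) →
        (F α).2 ⟨x, hα⟩ = (F β).2 ⟨x, hβ⟩ := by
  classical
  have hbd : ∀ (ι : Type) (v : ι → L), #ι ≤ #K → ∃ a, ∀ i, v i < a := by
    intro ι v hι
    by_contra hcon
    push Not at hcon
    have h1 : (univ : Set L) ⊆ ⋃ i, Iic (v i) := fun a _ => mem_iUnion.2 (hcon a)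
    have h2 := (mk_le_mk_of_subset h1).trans mk_iUnion_le_sum_mk
    have h3 : sum (fun i => #(Iic (v i))) ≤ sum (fun _ : ι => #K) := by
      refine sum_le_sum _ _ (fun i => ?_)
      rw [← Iio_insert]
      exact mk_insert_le.trans ((add_le_add_left (hL _) 1).trans (add_one_eq hK).le)
    rw [mk_univ] at h2
    rw [sum_const'] at h3
    exact absurd (h2.trans (h3.trans ((mul_le_mul_left hι _).trans (mul_eq_self hK).le)))
      (not_le.2 hKL)
  have he : ∀ a : L, Nonempty (Iio a ↪ K) := fun a => hL a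
  obtain ⟨a0, -⟩ := hbd Empty Empty.elim (by simp)
  obtain ⟨k0⟩ : Nonempty K := mk_ne_zero_iff.1 (aleph0_pos.trans_le hK).ne'
  haveI : Nonempty (Σ a : L, (Iio a ↪ K)) := ⟨⟨a0, (he a0).some⟩⟩
  by_cases hs : ∃ h : L × (L → K), ∀ δ, ∃ p : Σ a : L, (Iio a ↪ K), δ < p.1 ∧
      (∀ x (hx : x < p.1), x < h.1 → p.2 ⟨x, hx⟩ = h.2 x) ∧ ∀ x ∈ D p, h.1 ≤ x → δ ≤ x
  · obtain ⟨h, hh⟩ := hs
    obtain ⟨F, h1, h2⟩ := recur (T := L) (X := Σ a : L, (Iio a ↪ K))
      (fun _ p => ∀ x (hx : x < p.1), x < h.1 → p.2 ⟨x, hx⟩ = h.2 x)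
      (fun p q => p.1 < q.1 ∧ ∀ x ∈ D q, h.1 ≤ x → p.1 ≤ x) (fun b g _ _ => by
        obtain ⟨δ, hδ⟩ := hbd (Iio b) (fun a => (g a).1) (hL b)
        obtain ⟨p, h1, h2, h3⟩ := hh δ
        exact ⟨p, h2, fun a ha => ⟨(hδ ⟨a, ha⟩).trans h1,
          fun x hx hx' => (hδ ⟨a, ha⟩).le.trans (h3 x hx hx')⟩⟩)
    refine ⟨F, fun α β h => (h2 α β h).1, fun α β x hα hβ h3 h4 => ?_⟩
    rcases lt_trichotomy α β with h5 | rfl | h5
    · have h6 : x < h.1 := not_le.1 (fun h6 => not_le.2 hα ((h2 α β h5).2 x h4 h6))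
      rw [h1 α x hα h6, h1 β x hβ h6]
    · rfl
    · have h6 : x < h.1 := not_le.1 (fun h6 => not_le.2 hβ ((h2 β α h5).2 x h3 h6))
      rw [h1 α x hα h6, h1 β x hβ h6]
  exfalso
  push Not at hs
  choose bd hb using hs
  have hj : #(WithTop K × K) ≤ #K := by
    have : #(WithTop K) = #K + 1 := mk_option
    rw [mk_prod, lift_id, lift_id, this, add_one_eq hK, mul_eq_self hK]
  obtain ⟨j⟩ := hj
  haveI : Nonempty (L × (L → K)) := ⟨(a0, fun _ => k0)⟩
  obtain ⟨g, h1, h2⟩ := recur (T := WithTop K) (X := L × (L → K))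
    (fun ξ h => InjOn h.2 (Iio h.1) ∧ ∀ x < h.1, ∃ η ≤ ξ, ∃ k, h.2 x = j (η, k))
    (fun h h' => h.1 < h'.1 ∧ bd h < h'.1 ∧ ∀ x < h.1, h'.2 x = h.2 x) (fun b g h1 h2 => by
      obtain ⟨a, ha⟩ := hbd (WithTop K) (fun η => max (g η).1 (bd (g η))) (by
        have : #(WithTop K) = #K + 1 := mk_option
        rw [this, add_one_eq hK])
      let H : L → K := fun x => if h : ∃ η < b, x < (g η).1 then (g h.choose).2 x else
        if h' : x < a then j (b, (he a).some ⟨x, h'⟩) else k0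
      have hH : ∀ η < b, ∀ x < (g η).1, H x = (g η).2 x := by
        intro η hη x hx
        have h3 : ∃ η < b, x < (g η).1 := ⟨η, hη, hx⟩
        simp only [H, dif_pos h3]
        rcases lt_trichotomy h3.choose η with h4 | h4 | h4
        · exact ((h2 _ _ h4 hη).2.2 x h3.choose_spec.2).symm
        · rw [h4]
        · exact (h2 _ _ h4 h3.choose_spec.1).2.2 x hx
      have hN : ∀ x (hx : x < a), ¬ (∃ η < b, x < (g η).1) → H x = j (b, (he a).some ⟨x, hx⟩) := by
        intro x hx h3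
        simp only [H, dif_neg h3, dif_pos hx]
      have hmix : ∀ x y, y < a → (∃ η < b, x < (g η).1) → ¬ (∃ η < b, y < (g η).1) →
          H x ≠ H y := by
        rintro x y hy ⟨η, hη, hx⟩ h3 h4
        obtain ⟨ζ, hζ, k, hk⟩ := (h1 η hη).2 x hx
        rw [hH η hη x hx, hk, hN y hy h3] at h4
        exact (hζ.trans_lt hη).ne (congrArg Prod.fst (j.injective h4))
      refine ⟨(a, H), ⟨fun x hx y hy hxy => ?_, fun x hx => ?_⟩, fun η hη =>
        ⟨(le_max_left _ _).trans_lt (ha η), (le_max_right _ _).trans_lt (ha η), hH η hη⟩⟩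
      · by_cases h3 : ∃ η < b, x < (g η).1
        · by_cases h4 : ∃ η < b, y < (g η).1
          · obtain ⟨η, hη, h3⟩ := h3
            obtain ⟨ζ, hζ, h4⟩ := h4
            have h5 : ∀ η ζ, η ≤ ζ → ζ < b → (g η).1 ≤ (g ζ).1 := fun η ζ h h' =>
              h.eq_or_lt.elim (fun h => h ▸ le_rfl) (fun h => (h2 _ _ h h').1.le)
            have h6 := max_lt hη hζ
            have h7 := h3.trans_le (h5 _ _ (le_max_left η ζ) h6)
            have h8 := h4.trans_le (h5 _ _ (le_max_right η ζ) h6)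
            exact (h1 _ h6).1 h7 h8 ((hH _ h6 x h7).symm.trans (hxy.trans (hH _ h6 y h8)))
          · exact (hmix x y hy h3 h4 hxy).elim
        · by_cases h4 : ∃ η < b, y < (g η).1
          · exact (hmix y x hx h4 h3 hxy.symm).elim
          · have h5 : H x = H y := hxy
            rw [hN x hx h3, hN y hy h4] at h5
            exact congrArg Subtype.val
              ((he a).some.injective (congrArg Prod.snd (j.injective h5)))
      · by_cases h3 : ∃ η < b, x < (g η).1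
        · obtain ⟨η, hη, h3⟩ := h3
          obtain ⟨ζ, hζ, k, hk⟩ := (h1 η hη).2 x h3
          exact ⟨ζ, hζ.trans hη.le, k, (hH η hη x h3).trans hk⟩
        · exact ⟨b, le_rfl, _, hN x hx h3⟩)
  let p : Σ a : L, (Iio a ↪ K) := ⟨(g ⊤).1, ⟨fun x => (g ⊤).2 x,
    fun x y h => Subtype.ext ((h1 ⊤).1 x.2 y.2 h)⟩⟩
  have h3 : ∀ η : K, ∃ x ∈ D p, (g η).1 ≤ x ∧ x < bd (g η) := fun η =>
    hb (g η) p (h2 η ⊤ (WithTop.coe_lt_top η)).2.1
      (fun x _ hx => (h2 η ⊤ (WithTop.coe_lt_top η)).2.2 x hx)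
  choose x hx1 hx2 hx3 using h3
  have h4 : StrictMono x := fun η ζ h =>
    ((hx3 η).trans (h2 η ζ (WithTop.coe_lt_coe.2 h)).2.1).trans_le (hx2 ζ)
  exact absurd (mk_le_of_injective (f := fun η => (⟨x η, hx1 η⟩ : D p))
    (fun a b h => h4.injective (congrArg Subtype.val h))) (not_le.2 (hD p))

lemma all (κ : Cardinal.{0}) (hκ : ℵ₀ ≤ κ) : Delta κ := by
  intro D hD
  refine core (by simpa using hκ) (fun a => ?_) (by simp) D (fun f => by simpa using (hD f).2)
  have : #(Iio a) < Order.succ κ := by simpa using mk_Iio_lt a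
  simpa using Order.lt_succ_iff.1 this

/-- `Δ(κ)` holds for every infinite cardinal, and in particular for a cardinal with
`κ < κ^{<κ}`. -/
theorem result : (∀ κ : Cardinal.{0}, ℵ₀ ≤ κ → Delta κ) ∧
    ∃ κ : Cardinal.{0}, ℵ₀ ≤ κ ∧ κ < κ ^< κ ∧ Delta κ := by
  refine ⟨all, ℵ_ Ordinal.omega0, aleph0_le_aleph _, ?_, all _ (aleph0_le_aleph _)⟩
  refine (lt_power_cof_ord (aleph0_le_aleph _)).trans_le (le_powerlt _ ?_)
  rw [ord_aleph, Ordinal.cof_omega Ordinal.isSuccLimit_omega0, Ordinal.cof_omega0, ← aleph_zero]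
  exact aleph_lt_aleph.2 Ordinal.omega0_pos

end Pool.Agent.Results.MP_028983_lc.WeakDelta
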